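import Pool.Agent.Lib.MP_ab8df0_nt.T.Q5
import Pool.Agent.Lib.MP_ab8df0_nt.P.Q5a

/-! This class contains no solution. -/

set_option maxRecDepth 100000

namespace Pool.Agent.Lib.MP_ab8df0_nt.T.B72

open Pool.Agent.Lib.MP_ab8df0_nt.B Pool.Agent.Lib.MP_ab8df0_nt.C Pool.Agent.Lib.MP_ab8df0_nt.P

def vs : Cs := [([0, 1], 1), ([], 1), ([], 1), ([], 1), 
  ([2, 0, 1], 2),
  ([2, -3, 1, -1], 4),
  ([1, 6, -3, 2, -1], 1),
  ([4, 38, -4, 12, -2], 1),
  ([20, 72, 12, 24], 1),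
  ([24, 68, 24, 24, 4], 1),
  ([20, 24, 20, 8, 4], 1),
  ([16, 0, 8], 1),
  ([16, -24, 8, -8], 1),
  ([0, 1], 1),
  ([1, -1, -1], 1),
  ([1, 0, 1], 1),
  ([-7, 20, -2, 13, -4], 1),
  ([0, 2], 1)]

def M (t0 : ℤ) (k0 : ℕ) : List Hyp := [
  .disc 1 t0 k0,
  .disc 2 1 1,
  .disc 3 0 0,
  .sqr 3 (.add (.mul (.num 3) (.mul (.var 2) (.sq (.sq (.var 2))))) (.mul (.var 1) (.add (.mul (.num 20) (.sq (.sq (.var 2)))) (.mul (.var 1) (.add (.mul (.num 60) (.mul (.var 2) (.sq (.var 2)))) (.mul (.var 1) (.add (.mul (.num 80) (.sq (.var 2))) (.mul (.var 1) (.add (.mul (.num 60) (.var 2)) (.mul (.var 1) (.num 16))))))))))),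
  .cls (.add (.add (.add (.mul (.var 11) (.var 2)) (.mul (.var 1) (.var 12))) (.mul (.num 8) (.var 3))) (.add (.mul (.var 6) (.sq (.sq (.var 2)))) (.mul (.var 1) (.add (.mul (.var 7) (.mul (.var 2) (.sq (.var 2)))) (.mul (.var 1) (.add (.mul (.var 8) (.sq (.var 2))) (.mul (.var 1) (.add (.mul (.var 9) (.var 2)) (.mul (.var 1) (.var 10)))))))))) [13, 14, 15, 16, 17]]

def k0 : Cut := ⟨[0], [], [[true, false, false, false, false, false]], [[false, true, false, false, false, false], [true, false, false, false, true, false], [false, false, false, true, false, false], [false, false, false, true, true, true], [false, true, true, false, false, false]], [[true, false, false, false, false, false], [false, true, false, false, false, false], [false, true, false, false, false, true], [false, false, false, true, false, false], [true, false, true, false, false, false], [true, false, true, true, true, false]]⟩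

def A : List AH := [
  ]

theorem auto : (baseOk 3 vs && A.all (AH.ok FDQ5a 3 vs)) = true := by decide +kernel

def r0_0 : Tree := .set 4 [[ce (-1) 264 1 1 0x1], [ce (-1) 264 1 1 0x1]] (.set 5 [[ce (-2) 264 1 1 0x1], [ce (-2) 264 1 1 0x1]] (.set 6 [[], []] (.set 7 [[], []] (.set 8 [[], []] (.set 9 [[], []] (.set 10 [[], []] (.set 11 [[], []] (.set 12 [[], []] (.set 13 [[], []] (.set 14 [[], []] (.set 15 [[], []] (.set 16 [[], []] (.set 17 [[], []] (.piv [13, 14, 15, 16, 17] [[ce 0 264 1 0 0x0], [ce 0 264 1 1 0x1], [ce 0 264 1 1 0x1], [ce 0 264 1 1 0x1, ce 0 264 1 0 0x0], [ce (-1) 264 6 1 0x25, ce (-1) 264 5 4 0x85c6f]] (.disc 18 (.disc 19 (.disc 20 (.split 18 (.split 18 (.dead 22 23 [[], []] [false, false, false, false, false] [ce 0 264 1 1 0x1, ce (-1) 264 5 4 0xd0fa7]) (.dead 22 23 [[], []] [false, false, false, false, false] [ce 0 264 1 1 0x1, ce (-1) 264 5 4 0x94cbf])) (.split 18 (.split 19 (.dead 22 23 [[], []] [false,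 false, false, false, true] [ce (-1) 264 1 1 0x1, ce (-1) 264 5 4 0x29178]) (.dead 22 23 [[], []] [false, false, false, false, true] [ce (-1) 264 1 1 0x1, ce (-1) 264 5 4 0x4e2f0])) (.split 19 (.dead 22 23 [[], []] [false, false, false, false, true] [ce (-1) 264 1 1 0x1, ce (-1) 264 5 4 0x4a0f0]) (.dead 22 23 [[], []] [false, false, false, false, true] [ce (-1) 264 1 1 0x1, ce (-1) 264 5 4 0xa9178])))))))))))))))))))))

theorem r0 : run FDQ5a.ds FDQ5a.es [[], []] vs.length (fullH 3 vs (M 0 0) A) r0_0 = true := by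
  decide +kernel

theorem rn {K : Type} [Field K] [NumberField K] {a : K} {pl : List (Place K)} {ph : List (K →+* ℝ)}
    {w : List (IsDedekindDomain.HeightOneSpectrum (NumberField.RingOfIntegers K))}
    (hP : Pack K FDQ5a a pl ph w) : (((cval a vs 4) ^ 2) - (2 * ((cval a vs 5) ^ 2))) = 1 := by
  have h : ((((cval a vs 4) ^ 2) + (-((((2 : ℤ) : K) * ((cval a vs 5) ^ 2))))) + (-(((1 : ℤ) : K)))) = 0 :=
    hP.rel vs (.add (.add (.sq (.var 4)) (.neg (.mul (.num 2) (.sq (.var 5))))) (.neg (.num 1))) (by decide +kernel)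
  have h0 : cval a vs 0 = a := by simp [cval, vs, ev]
  try rw [h0] at h
  try push_cast at h
  linear_combination h

theorem re0 {K : Type} [Field K] [NumberField K] {a : K} {pl : List (Place K)} {ph : List (K →+* ℝ)}
    {w : List (IsDedekindDomain.HeightOneSpectrum (NumberField.RingOfIntegers K))}
    (hP : Pack K FDQ5a a pl ph w) : (cval a vs 4 * (((((cval a vs 4) ^ 2)) ^ 2) + ((20 * (((cval a vs 4) ^ 2) * ((cval a vs 5) ^ 2))) + (20 * ((((cval a vs 5) ^ 2)) ^ 2))))) = 3 := by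
  have h : ((cval a vs 4 * (((((cval a vs 4) ^ 2)) ^ 2) + ((((20 : ℤ) : K) * (((cval a vs 4) ^ 2) * ((cval a vs 5) ^ 2))) + (((20 : ℤ) : K) * ((((cval a vs 5) ^ 2)) ^ 2))))) + (-(((3 : ℤ) : K)))) = 0 :=
    hP.rel vs (.add (.mul (.var 4) (.add (.sq (.sq (.var 4))) (.add (.mul (.num 20) (.mul (.sq (.var 4)) (.sq (.var 5)))) (.mul (.num 20) (.sq (.sq (.var 5))))))) (.neg (.num 3))) (by decide +kernel)
  have h0 : cval a vs 0 = a := by simp [cval, vs, ev]
  try rw [h0] at h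
  try push_cast at h
  linear_combination h

theorem re1 {K : Type} [Field K] [NumberField K] {a : K} {pl : List (Place K)} {ph : List (K →+* ℝ)}
    {w : List (IsDedekindDomain.HeightOneSpectrum (NumberField.RingOfIntegers K))}
    (hP : Pack K FDQ5a a pl ph w) : (cval a vs 5 * ((5 * ((((cval a vs 4) ^ 2)) ^ 2)) + ((20 * (((cval a vs 4) ^ 2) * ((cval a vs 5) ^ 2))) + (4 * ((((cval a vs 5) ^ 2)) ^ 2))))) = 2 := by
  have h : ((cval a vs 5 * ((((5 : ℤ) : K) * ((((cval a vs 4) ^ 2)) ^ 2)) + ((((20 : ℤ) : K) * (((cval a vs 4) ^ 2) * ((cval a vs 5) ^ 2))) + (((4 : ℤ) : K) * ((((cval a vs 5) ^ 2)) ^ 2))))) + (-(((2 : ℤ) : K)))) = 0 :=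
    hP.rel vs (.add (.mul (.var 5) (.add (.mul (.num 5) (.sq (.sq (.var 4)))) (.add (.mul (.num 20) (.mul (.sq (.var 4)) (.sq (.var 5)))) (.mul (.num 4) (.sq (.sq (.var 5))))))) (.neg (.num 2))) (by decide +kernel)
  have h0 : cval a vs 0 = a := by simp [cval, vs, ev]
  try rw [h0] at h
  try push_cast at h
  linear_combination h

theorem ra0 {K : Type} [Field K] [NumberField K] {a : K} {pl : List (Place K)} {ph : List (K →+* ℝ)}
    {w : List (IsDedekindDomain.HeightOneSpectrum (NumberField.RingOfIntegers K))}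
    (hP : Pack K FDQ5a a pl ph w) : cval a vs 11 = (16 * cval a vs 4) := by
  have h : (cval a vs 11 + (-((((16 : ℤ) : K) * cval a vs 4)))) = 0 :=
    hP.rel vs (.add (.var 11) (.neg (.mul (.num 16) (.var 4)))) (by decide +kernel)
  have h0 : cval a vs 0 = a := by simp [cval, vs, ev]
  try rw [h0] at h
  try push_cast at h
  linear_combination h

theorem ra1 {K : Type} [Field K] [NumberField K] {a : K} {pl : List (Place K)} {ph : List (K →+* ℝ)}
    {w : List (IsDedekindDomain.HeightOneSpectrum (NumberField.RingOfIntegers K))}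
    (hP : Pack K FDQ5a a pl ph w) : cval a vs 12 = (32 * cval a vs 5) := by
  have h : (cval a vs 12 + (-((((32 : ℤ) : K) * cval a vs 5)))) = 0 :=
    hP.rel vs (.add (.var 12) (.neg (.mul (.num 32) (.var 5)))) (by decide +kernel)
  have h0 : cval a vs 0 = a := by simp [cval, vs, ev]
  try rw [h0] at h
  try push_cast at h
  linear_combination h

theorem rg0 {K : Type} [Field K] [NumberField K] {a : K} {pl : List (Place K)} {ph : List (K →+* ℝ)}
    {w : List (IsDedekindDomain.HeightOneSpectrum (NumberField.RingOfIntegers K))}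
    (hP : Pack K FDQ5a a pl ph w) : cval a vs 6 = (((20 * ((((cval a vs 5) ^ 2)) ^ 2)) + (20 * (((cval a vs 4) ^ 2) * ((cval a vs 5) ^ 2)))) + (1 * ((((cval a vs 4) ^ 2)) ^ 2))) := by
  have h : (cval a vs 6 + (-((((((20 : ℤ) : K) * ((((cval a vs 5) ^ 2)) ^ 2)) + (((20 : ℤ) : K) * (((cval a vs 4) ^ 2) * ((cval a vs 5) ^ 2)))) + (((1 : ℤ) : K) * ((((cval a vs 4) ^ 2)) ^ 2)))))) = 0 :=
    hP.rel vs (.add (.var 6) (.neg (.add (.add (.mul (.num 20) (.sq (.sq (.var 5)))) (.mul (.num 20) (.mul (.sq (.var 4)) (.sq (.var 5))))) (.mul (.num 1) (.sq (.sq (.var 4))))))) (by decide +kernel)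
  have h0 : cval a vs 0 = a := by simp [cval, vs, ev]
  try rw [h0] at h
  try push_cast at h
  linear_combination h

theorem rg1 {K : Type} [Field K] [NumberField K] {a : K} {pl : List (Place K)} {ph : List (K →+* ℝ)}
    {w : List (IsDedekindDomain.HeightOneSpectrum (NumberField.RingOfIntegers K))}
    (hP : Pack K FDQ5a a pl ph w) : cval a vs 7 = ((160 * (((cval a vs 5) ^ 2) * (cval a vs 4 * cval a vs 5))) + (48 * (((cval a vs 4) ^ 2) * (cval a vs 4 * cval a vs 5)))) := by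
  have h : (cval a vs 7 + (-(((((160 : ℤ) : K) * (((cval a vs 5) ^ 2) * (cval a vs 4 * cval a vs 5))) + (((48 : ℤ) : K) * (((cval a vs 4) ^ 2) * (cval a vs 4 * cval a vs 5))))))) = 0 :=
    hP.rel vs (.add (.var 7) (.neg (.add (.mul (.num 160) (.mul (.sq (.var 5)) (.mul (.var 4) (.var 5)))) (.mul (.num 48) (.mul (.sq (.var 4)) (.mul (.var 4) (.var 5))))))) (by decide +kernel)
  have h0 : cval a vs 0 = a := by simp [cval, vs, ev]
  try rw [h0] at h
  try push_cast at h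
  linear_combination h

theorem rg2 {K : Type} [Field K] [NumberField K] {a : K} {pl : List (Place K)} {ph : List (K →+* ℝ)}
    {w : List (IsDedekindDomain.HeightOneSpectrum (NumberField.RingOfIntegers K))}
    (hP : Pack K FDQ5a a pl ph w) : cval a vs 8 = (((80 * ((((cval a vs 5) ^ 2)) ^ 2)) + (304 * (((cval a vs 4) ^ 2) * ((cval a vs 5) ^ 2)))) + (20 * ((((cval a vs 4) ^ 2)) ^ 2))) := by
  have h : (cval a vs 8 + (-((((((80 : ℤ) : K) * ((((cval a vs 5) ^ 2)) ^ 2)) + (((304 : ℤ) : K) * (((cval a vs 4) ^ 2) * ((cval a vs 5) ^ 2)))) + (((20 : ℤ) : K) * ((((cval a vs 4) ^ 2)) ^ 2)))))) = 0 :=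
    hP.rel vs (.add (.var 8) (.neg (.add (.add (.mul (.num 80) (.sq (.sq (.var 5)))) (.mul (.num 304) (.mul (.sq (.var 4)) (.sq (.var 5))))) (.mul (.num 20) (.sq (.sq (.var 4))))))) (by decide +kernel)
  have h0 : cval a vs 0 = a := by simp [cval, vs, ev]
  try rw [h0] at h
  try push_cast at h
  linear_combination h

theorem rg3 {K : Type} [Field K] [NumberField K] {a : K} {pl : List (Place K)} {ph : List (K →+* ℝ)}
    {w : List (IsDedekindDomain.HeightOneSpectrum (NumberField.RingOfIntegers K))}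
    (hP : Pack K FDQ5a a pl ph w) : cval a vs 9 = ((192 * (((cval a vs 5) ^ 2) * (cval a vs 4 * cval a vs 5))) + (160 * (((cval a vs 4) ^ 2) * (cval a vs 4 * cval a vs 5)))) := by
  have h : (cval a vs 9 + (-(((((192 : ℤ) : K) * (((cval a vs 5) ^ 2) * (cval a vs 4 * cval a vs 5))) + (((160 : ℤ) : K) * (((cval a vs 4) ^ 2) * (cval a vs 4 * cval a vs 5))))))) = 0 :=
    hP.rel vs (.add (.var 9) (.neg (.add (.mul (.num 192) (.mul (.sq (.var 5)) (.mul (.var 4) (.var 5)))) (.mul (.num 160) (.mul (.sq (.var 4)) (.mul (.var 4) (.var 5))))))) (by decide +kernel)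
  have h0 : cval a vs 0 = a := by simp [cval, vs, ev]
  try rw [h0] at h
  try push_cast at h
  linear_combination h

theorem rg4 {K : Type} [Field K] [NumberField K] {a : K} {pl : List (Place K)} {ph : List (K →+* ℝ)}
    {w : List (IsDedekindDomain.HeightOneSpectrum (NumberField.RingOfIntegers K))}
    (hP : Pack K FDQ5a a pl ph w) : cval a vs 10 = (((16 * ((((cval a vs 5) ^ 2)) ^ 2)) + (80 * (((cval a vs 4) ^ 2) * ((cval a vs 5) ^ 2)))) + (20 * ((((cval a vs 4) ^ 2)) ^ 2))) := by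
  have h : (cval a vs 10 + (-((((((16 : ℤ) : K) * ((((cval a vs 5) ^ 2)) ^ 2)) + (((80 : ℤ) : K) * (((cval a vs 4) ^ 2) * ((cval a vs 5) ^ 2)))) + (((20 : ℤ) : K) * ((((cval a vs 4) ^ 2)) ^ 2)))))) = 0 :=
    hP.rel vs (.add (.var 10) (.neg (.add (.add (.mul (.num 16) (.sq (.sq (.var 5)))) (.mul (.num 80) (.mul (.sq (.var 4)) (.sq (.var 5))))) (.mul (.num 20) (.sq (.sq (.var 4))))))) (by decide +kernel)
  have h0 : cval a vs 0 = a := by simp [cval, vs, ev]
  try rw [h0] at h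
  try push_cast at h
  linear_combination h

theorem core {K : Type} [Field K] [NumberField K] {a : K} {pl : List (Place K)} {ph : List (K →+* ℝ)}
    {w : List (IsDedekindDomain.HeightOneSpectrum (NumberField.RingOfIntegers K))}
    (hP : Pack K FDQ5a a pl ph w) {G : Prop} (v u y : K)
    (hdisc : Q2 0 (v - ((0 : ℤ) : K)))
    (hu : Q2 1 (u - ((1 : ℤ) : K)))
    (hy : Q2 0 (y - ((0 : ℤ) : K)))
    (hsq : y ^ 2 = ((3 * (u * ((((u) ^ 2)) ^ 2))) + (v * ((20 * ((((u) ^ 2)) ^ 2)) + (v * ((60 * (u * ((u) ^ 2))) + (v * ((80 * ((u) ^ 2)) + (v * ((60 * u) + (v * 16)))))))))))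
    (hcls : ∀ p : IsDedekindDomain.HeightOneSpectrum (NumberField.RingOfIntegers K), ((10 : ℕ) : NumberField.RingOfIntegers K) ∉ p.asIdeal →
      ∃ k : ℤ, p.valuation K ((((cval a vs 11 * u) + (v * cval a vs 12)) + (8 * y)) + ((cval a vs 6 * ((((u) ^ 2)) ^ 2)) + (v * ((cval a vs 7 * (u * ((u) ^ 2))) + (v * ((cval a vs 8 * ((u) ^ 2)) + (v * ((cval a vs 9 * u) + (v * cval a vs 10))))))))) = WithZero.exp (2 * k))
    (hclsre : ∀ i ∈ [0], ∀ φ, ph[i]? = some φ → 0 < φ ((((cval a vs 11 * u) + (v * cval a vs 12)) + (8 * y)) + ((cval a vs 6 * ((((u) ^ 2)) ^ 2)) + (v * ((cval a vs 7 * (u * ((u) ^ 2))) + (v * ((cval a vs 8 * ((u) ^ 2)) + (v * ((cval a vs 9 * u) + (v * cval a vs 10)))))))))) :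
    G := by
  refine hP.cover (fr := [v, u, y]) (M := M) (cs := [[], []]) rfl auto
    (l := [(0, 0)]) (by decide) ?_ hdisc fun tt kk hq => ?_
  · exact List.forall_mem_cons.2 ⟨⟨_, r0⟩, fun _ h => absurd h List.not_mem_nil⟩
  · refine List.forall_mem_cons.2 ⟨?_, List.forall_mem_cons.2 ⟨?_, List.forall_mem_cons.2 ⟨?_, List.forall_mem_cons.2 ⟨?_, List.forall_mem_cons.2 ⟨?_, fun _ h => absurd h List.not_mem_nil⟩⟩⟩⟩⟩
    · exact hq
    · exact hu
    · exact hy
    · show y ^ 2 = ((((3 : ℤ) : K) * (u * ((((u) ^ 2)) ^ 2))) + (v * ((((20 : ℤ) : K) * ((((u) ^ 2)) ^ 2)) + (v * ((((60 : ℤ) : K) * (u * ((u) ^ 2))) + (v * ((((80 : ℤ) : K) * ((u) ^ 2)) + (v * ((((60 : ℤ) : K) * u) + (v * ((16 : ℤ) : K)))))))))))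
      try push_cast
      linear_combination hsq
    · exact fun h0 => hP.span_cut (nf := 3) (vs := vs) (x := ((((cval a vs 11 * u) + (v * cval a vs 12)) + (((8 : ℤ) : K) * y)) + ((cval a vs 6 * ((((u) ^ 2)) ^ 2)) + (v * ((cval a vs 7 * (u * ((u) ^ 2))) + (v * ((cval a vs 8 * ((u) ^ 2)) + (v * ((cval a vs 9 * u) + (v * cval a vs 10)))))))))) (fr := [v, u, y]) rfl k0 (by decide +kernel) h0 ((by push_cast; ring : ((((cval a vs 11 * u) + (v * cval a vs 12)) + (((8 : ℤ) : K) * y)) + ((cval a vs 6 * ((((u) ^ 2)) ^ 2)) + (v * ((cval a vs 7 * (u * ((u) ^ 2))) + (v * ((cval a vs 8 * ((u) ^ 2)) + (v * ((cval a vs 9 * u) + (v * cval a vs 10))))))))) = ((((cval a vs 11 * u) + (v * cval a vs 12)) + (8 * y)) + ((cval a vs 6 * ((((u) ^ 2)) ^ 2)) + (v * ((cval a vs 7 * (u * ((u) ^ 2))) + (v * ((cval a vs 8 * ((u) ^ 2)) + (v * ((cval a vs 9 * u) + (v * cval a vs 10)))))))))) ▸ hcls) ((by push_cast; ring : ((((cval a vs 11 * u) + (v * cval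 a vs 12)) + (((8 : ℤ) : K) * y)) + ((cval a vs 6 * ((((u) ^ 2)) ^ 2)) + (v * ((cval a vs 7 * (u * ((u) ^ 2))) + (v * ((cval a vs 8 * ((u) ^ 2)) + (v * ((cval a vs 9 * u) + (v * cval a vs 10))))))))) = ((((cval a vs 11 * u) + (v * cval a vs 12)) + (8 * y)) + ((cval a vs 6 * ((((u) ^ 2)) ^ 2)) + (v * ((cval a vs 7 * (u * ((u) ^ 2))) + (v * ((cval a vs 8 * ((u) ^ 2)) + (v * ((cval a vs 9 * u) + (v * cval a vs 10)))))))))) ▸ hclsre) (fun _ h => absurd h List.not_mem_nil)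

open IsDedekindDomain NumberField in
/-- the class of the auxiliary quantity -/
theorem lev2 {K : Type} [Field K] [NumberField K] {A B X : K} {u v y : ℤ} (ψ : K →+* ℝ)
    (hA : ∀ v : HeightOneSpectrum (𝓞 K), ((10 : ℕ) : 𝓞 K) ∉ v.asIdeal → v.valuation K A ≤ 1)
    (hn : A ^ 2 - 2 * B ^ 2 = 1)
    (h0 : A ^ 5 + 20 * A ^ 3 * B ^ 2 + 20 * A * B ^ 4 = 3)
    (h1 : 5 * A ^ 4 * B + 20 * A ^ 2 * B ^ 3 + 4 * B ^ 5 = 2)
    (huv : IsCoprime u v) (y0 : y ≠ 0) (hy0 : 0 ≤ y)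
    (hy : y ^ 2 = 3 * re5 2 u v + 2 * 2 * im5 2 u v)
    (hX : X = 16 * (u * A + 2 * v * B) + 8 * y + Q5.G4 2 (u * A + 2 * v * B) (u * B + v * A)) :
    (∀ p : HeightOneSpectrum (𝓞 K), ((10 : ℕ) : 𝓞 K) ∉ p.asIdeal →
      ∃ k : ℤ, p.valuation K X = WithZero.exp (2 * k)) ∧ ∀ φ : K →+* ℝ, 0 < φ X := by
  have e := Q5.fac (A := A) (B := B) (d := 2) (e0 := 3) (e1 := 2) u v
    (by push_cast; linear_combination h0) (by push_cast; linear_combination h1)
  rw [← hy, Int.cast_pow] at e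
  have hc := Q5.G4_cls (n := 1) hA (by push_cast; exact hn) (one_pow 2)
    (Or.inl (by norm_num)) huv y0 e
  have g0 : Q5.G4 ((2 : ℤ) : K) (u * A + (2 : ℤ) * v * B) (u * B + v * A) ≠ 0 := fun q =>
    pow_ne_zero 2 (Int.cast_ne_zero.2 y0) (by rw [e, q, mul_zero])
  have gp := Q5.G4_pos (by norm_num) g0
  have hm := Q5.X_mul 4 e
  rw [Int.cast_ofNat] at hm hc gp
  rw [show (4 : K) ^ 2 * (u * A + 2 * v * B) + 2 * 4 * y +
    Q5.G4 2 (u * A + 2 * v * B) (u * B + v * A) = X by rw [hX]; ring] at hm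
  have r1 : 4 * (y : K) + Q5.G4 2 (u * A + 2 * v * B) (u * B + v * A) ≠ 0 := fun q => by
    have q1 := congrArg ψ q
    have q2 := gp ψ
    have q3 : (0 : ℝ) ≤ y := by exact_mod_cast hy0
    rw [map_add, map_mul, map_intCast, map_ofNat, map_zero] at q1
    linarith
  exact ⟨fun p hp => Q5.X_even hm r1 (hc p hp), fun φ => Q5.X_pos hm r1 φ (gp φ)⟩

theorem bb0 {K : Type} [Field K] [NumberField K] {a : K} {pl : List (Place K)}
    {ph : List (K →+* ℝ)}
    {w : List (IsDedekindDomain.HeightOneSpectrum (NumberField.RingOfIntegers K))}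
    (hP : Pack K FDQ5a a pl ph w) : BB72 := by
  intro u v y huv ho hy
  obtain ⟨ψ, -⟩ := List.forall₂_cons_right_iff.1 hP.re
  have hy' : |y| ^ 2 = 3 * re5 2 u v + 2 * 2 * im5 2 u v := by rw [sq_abs, hy]; ring
  have y0 : |y| ≠ 0 := fun q => by
    obtain ⟨m, hm⟩ : Odd (u ^ 5) := ho.pow
    have : 0 = 3 * u ^ 5 + 2 * (30 * u ^ 3 * v ^ 2 + 30 * u * v ^ 4 + 2 * im5 2 u v) := by
      rw [q, re5] at hy'; linear_combination hy'
    omega
  have hl := fun X => lev2 (A := cval a vs 4) (B := cval a vs 5) (X := X) ψ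
    (hP.cint vs 4 1 (by decide)) (by linear_combination rn hP)
    (by linear_combination re0 hP) (by linear_combination re1 hP) huv y0 (abs_nonneg y) hy'
  have hq := congrArg (Int.cast : ℤ → K) hy'
  refine core hP (v : K) (u : K) ((|y| : ℤ) : K) ⟨v, 1, odd_one, by simp⟩ (q2_unit ho)
    ⟨|y|, 1, odd_one, by simp⟩ ?_ (hl _ ?_).1 fun _ _ φ _ => (hl _ ?_).2 φ
  · generalize |y| = z at hq
    simp only [re5, im5] at hq
    push_cast at hq ⊢
    linear_combination hq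
  all_goals
    rw [ra0 hP, ra1 hP, rg0 hP, rg1 hP, rg2 hP, rg3 hP, rg4 hP, Q5.G4]
    ring

theorem bb : BB72 := by
  obtain ⟨pl, ph, w, hP⟩ := P.Q5a.pack
  exact bb0 hP

end Pool.Agent.Lib.MP_ab8df0_nt.T.B72
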